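import Pool.Agent.helper4.HL.Spec

/-! # hl: UDC, from `x` to `c = 1/(a x)` -/

namespace Pool.Agent.HL

open Pool.Agent.helper86.CM Pool.Agent.QS Filter MeasureTheory
open scoped BigOperators ComplexOrder ComplexConjugate Topology

theorem UDC (hU : UDA_stmt) : UDC_stmt := by
  intro l a K hl ha hK hK0
  have h1 : ∀ᵐ x : ℝ, ∀ κ ∈ K, Tendsto (fun m : ℕ =>
      (m : ℂ)⁻¹ * ∑ s ∈ Finset.range m, ee (l ^ s * κ * x)) atTop (𝓝 0) :=
    (ae_ball_iff hK).mpr fun κ hκ => hU l κ hl (hK0 κ hκ)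
  rw [ae_iff] at h1
  set E : Set ℝ := {x : ℝ | ¬ ∀ κ ∈ K, Tendsto (fun m : ℕ =>
      (m : ℂ)⁻¹ * ∑ s ∈ Finset.range m, ee (l ^ s * κ * x)) atTop (𝓝 0)} with hE
  have hE0 : volume (E ∩ Set.Ioi 0) = 0 := measure_mono_null Set.inter_subset_left h1
  have hdiff : DifferentiableOn ℝ (fun x : ℝ => (a * x)⁻¹) (E ∩ Set.Ioi 0) := by
    intro x hx
    have hx0 : (0 : ℝ) < x := hx.2
    have h2 : DifferentiableAt ℝ (fun x : ℝ => a * x) x :=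
      (differentiableAt_id.const_mul a)
    exact (h2.inv (mul_pos ha hx0).ne').differentiableWithinAt
  have himg : volume ((fun x : ℝ => (a * x)⁻¹) '' (E ∩ Set.Ioi 0)) = 0 :=
    addHaar_image_eq_zero_of_differentiableOn_of_addHaar_eq_zero volume hdiff hE0
  rw [ae_iff]
  refine measure_mono_null ?_ himg
  intro c hc
  have hc1 : ¬ (0 < c → ∀ κ ∈ K, Tendsto (fun m : ℕ =>
      (m : ℂ)⁻¹ * ∑ s ∈ Finset.range m, ee (l ^ s * κ * (a * c)⁻¹)) atTop (𝓝 0)) := hc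
  rw [Classical.not_imp] at hc1
  obtain ⟨hc0, hc2⟩ := hc1
  refine ⟨(a * c)⁻¹, ⟨hc2, inv_pos.mpr (mul_pos ha hc0)⟩, ?_⟩
  show (a * (a * c)⁻¹)⁻¹ = c
  have ha' : a ≠ 0 := ha.ne'
  have hc' : c ≠ 0 := hc0.ne'
  field_simp

end Pool.Agent.HL
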